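import Pool.Agent.Helper9.Ends.Defs

/-!
EN-2a, EN-2b (MP_f940ca_an): the winding number is locally constant off the path, and zero far
away.
-/

set_option autoImplicit false

open Set Filter Metric Topology MeasureTheory
open scoped ContDiff
open Pool.Agent.Helper61.KS

namespace Pool.Agent.EN

/-- EN-2a -/
theorem wind_locConst {D : Set ℂ} {γ : ℝ → ℂ} {x : ℂ} (h : FP D γ x x) {w₀ : ℂ}
    (hw : ∀ t, γ t ≠ w₀) :
    ∀ᶠ w in 𝓝 w₀, PI (fun z => (z - w)⁻¹) γ = PI (fun z => (z - w₀)⁻¹) γ := by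
  -- a positive lower bound for the distance to the path
  obtain ⟨δ, hδ, hδ'⟩ : ∃ δ : ℝ, 0 < δ ∧ ∀ t, δ ≤ ‖γ t - w₀‖ := by
    have hcont : Continuous fun t => ‖γ t - w₀‖ := (h.smooth.continuous.sub continuous_const).norm
    obtain ⟨t₀, -, ht₀⟩ := (isCompact_Icc (a := (0 : ℝ)) (b := 1)).exists_isMinOn
      (nonempty_Icc.2 zero_le_one) hcont.continuousOn
    refine ⟨‖γ t₀ - w₀‖, norm_pos_iff.2 (sub_ne_zero.2 (hw t₀)), fun t => ?_⟩
    rcases le_total t 0 with h0 | h0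
    · rw [h.left t h0, ← h.left 0 le_rfl]
      exact ht₀ (left_mem_Icc.2 zero_le_one)
    rcases le_total 1 t with h1 | h1
    · rw [h.right t h1, ← h.left 0 le_rfl]
      exact ht₀ (left_mem_Icc.2 zero_le_one)
    exact ht₀ (mem_Icc.2 ⟨h0, h1⟩)
  filter_upwards [ball_mem_nhds w₀ hδ] with w hwb
  rw [mem_ball, dist_eq_norm] at hwb
  have hB : ∀ t, γ t ∈ {z : ℂ | ‖w - w₀‖ < ‖z - w₀‖} := fun t => lt_of_lt_of_le hwb (hδ' t)
  have hne0 : ∀ z ∈ {z : ℂ | ‖w - w₀‖ < ‖z - w₀‖}, z - w₀ ≠ 0 := by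
    intro z hz
    exact norm_pos_iff.1 (lt_of_le_of_lt (norm_nonneg _) hz)
  have hne1 : ∀ z ∈ {z : ℂ | ‖w - w₀‖ < ‖z - w₀‖}, z - w ≠ 0 := by
    intro z hz h0
    rw [sub_eq_zero] at h0
    subst h0
    exact lt_irrefl _ (mem_ofPred_eq ▸ hz)
  have hF : FP {z : ℂ | ‖w - w₀‖ < ‖z - w₀‖} γ x x := ⟨h.smooth, h.left, h.right, hB⟩
  have hc1 : ContinuousOn (fun z => (z - w)⁻¹) {z : ℂ | ‖w - w₀‖ < ‖z - w₀‖} :=
    ContinuousOn.inv₀ (by fun_prop) hne1
  have hc0 : ContinuousOn (fun z => (z - w₀)⁻¹) {z : ℂ | ‖w - w₀‖ < ‖z - w₀‖} :=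
    ContinuousOn.inv₀ (by fun_prop) hne0
  have hd : ∀ z ∈ {z : ℂ | ‖w - w₀‖ < ‖z - w₀‖},
      HasDerivAt (fun z => Complex.log (1 + -((w - w₀) / (z - w₀))))
        ((z - w)⁻¹ - (z - w₀)⁻¹) z := by
    intro z hz
    have h0 := hne0 z hz
    have h1 := hne1 z hz
    have hs : 1 + -((w - w₀) / (z - w₀)) ∈ Complex.slitPlane := by
      apply Complex.mem_slitPlane_of_norm_lt_one
      rw [norm_neg, norm_div, div_lt_one (norm_pos_iff.2 h0)]
      exact hz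
    have e1 : HasDerivAt (fun z : ℂ => z - w₀) 1 z := (hasDerivAt_id z).sub_const w₀
    have e2 : HasDerivAt (fun z : ℂ => 1 + -((w - w₀) / (z - w₀)))
        ((w - w₀) / (z - w₀) ^ 2) z := by
      have := (((hasDerivAt_const z (w - w₀)).div e1 h0).neg).const_add 1
      refine this.congr_deriv ?_
      ring
    refine (e2.clog hs).congr_deriv ?_
    have e3 : 1 + -((w - w₀) / (z - w₀)) = (z - w) / (z - w₀) := by
      field_simp
      ring
    rw [e3]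
    field_simp
    ring
  have key := PI_prim hd hF hB (hc1.sub hc0)
  rw [sub_self] at key
  have hsub : PI (fun z => (z - w)⁻¹ - (z - w₀)⁻¹) γ
      = PI (fun z => (z - w)⁻¹) γ - PI (fun z => (z - w₀)⁻¹) γ := by
    unfold PI
    rw [← integral_sub (hF.integrable hc1) (hF.integrable hc0)]
    congr 1
    ext t
    ring
  rw [hsub] at key
  exact sub_eq_zero.1 key

/-- EN-2b -/
theorem wind_far {D : Set ℂ} {γ : ℝ → ℂ} {x : ℂ} (h : FP D γ x x) {w : ℂ}
    (hw : ∀ t, ‖γ t‖ < ‖w‖) : PI (fun z => (z - w)⁻¹) γ = 0 := by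
  have hw0 : w ≠ 0 := norm_pos_iff.1 (lt_of_le_of_lt (norm_nonneg _) (hw 0))
  have hF : FP {z : ℂ | ‖z‖ < ‖w‖} γ x x := ⟨h.smooth, h.left, h.right, hw⟩
  have hne : ∀ z ∈ {z : ℂ | ‖z‖ < ‖w‖}, z - w ≠ 0 := by
    intro z hz h0
    rw [sub_eq_zero] at h0
    subst h0
    exact lt_irrefl _ (mem_ofPred_eq ▸ hz)
  have hc : ContinuousOn (fun z => (z - w)⁻¹) {z : ℂ | ‖z‖ < ‖w‖} :=
    ContinuousOn.inv₀ (by fun_prop) hne
  have hd : ∀ z ∈ {z : ℂ | ‖z‖ < ‖w‖},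
      HasDerivAt (fun z => Complex.log (1 + -(z / w))) ((z - w)⁻¹) z := by
    intro z hz
    have h1 := hne z hz
    have hs : 1 + -(z / w) ∈ Complex.slitPlane := by
      apply Complex.mem_slitPlane_of_norm_lt_one
      rw [norm_neg, norm_div, div_lt_one (norm_pos_iff.2 hw0)]
      exact hz
    have e2 : HasDerivAt (fun z : ℂ => 1 + -(z / w)) (-(1 / w)) z :=
      (((hasDerivAt_id z).div_const w).neg).const_add 1
    refine (e2.clog hs).congr_deriv ?_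
    have e3 : 1 + -(z / w) = -((z - w) / w) := by
      field_simp
      ring
    rw [e3]
    field_simp
  have key := PI_prim hd hF hw hc
  rw [sub_self] at key
  exact key

end Pool.Agent.EN
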